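import Pool.Agent.Lib.P42cda2.Raw

set_option autoImplicit false

/-!
If `a, b, c` are positive integers, `gcd(a,b,c)` is squarefree and every square `n ^ 2` (`n ≥ 1`) is
of the form `x^2+y^2+z^2+w^2` with `x, y, z, w ∈ ℕ` and `a x + b y + c z` a power of `4`, then
`(a,b,c)` is a permutation of `(1,2,3)`.
-/

namespace Pool.Agent.Results.MP_42cda2_nt.Uniqueness

open Pool.Agent.Lib.P42cda2

/-- Property (P) of the problem: for every positive integer `n` there are natural numbers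
`x, y, z, w` with `n ^ 2 = x ^ 2 + y ^ 2 + z ^ 2 + w ^ 2` and `a x + b y + c z = 4 ^ k` for some
natural number `k`. -/
def PropP (a b c : ℕ) : Prop :=
  ∀ n : ℕ, 0 < n → ∃ x y z w : ℕ, n ^ 2 = x ^ 2 + y ^ 2 + z ^ 2 + w ^ 2 ∧
    ∃ k : ℕ, a * x + b * y + c * z = 4 ^ k

/-- all conditions (integer version) -/
def AllAt (a b c : ℤ) : Prop := ∀ n, 1 ≤ n → At n a b c

lemma AllAt.swap23 {a b c : ℤ} (h : AllAt a b c) : AllAt a c b := by
  intro n hn
  obtain ⟨x, y, z, w, hs, k, hk⟩ := h n hn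
  exact ⟨x, z, y, w, by omega, k, by linarith⟩

lemma AllAt.swap12 {a b c : ℤ} (h : AllAt a b c) : AllAt b a c := by
  intro n hn
  obtain ⟨x, y, z, w, hs, k, hk⟩ := h n hn
  exact ⟨y, x, z, w, by omega, k, by linarith⟩

lemma concl_swap {a b c : ℤ} (h : Concl a b c) : Concl a c b := by
  rcases h with ⟨h1, h2⟩ | ⟨h1, h2⟩
  · exact Or.inr ⟨h2, h1⟩
  · exact Or.inl ⟨h2, h1⟩

lemma four_pow_mod3 (k : ℕ) : (4 : ℤ) ^ k % 3 = 1 := by
  induction k with
  | zero => norm_num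
  | succ k ih => rw [pow_succ]; omega

lemma four_pow_mod5 (k : ℕ) : (4 : ℤ) ^ k % 5 = 1 ∨ (4 : ℤ) ^ k % 5 = 4 := by
  induction k with
  | zero => norm_num
  | succ k ih => rw [pow_succ]; omega

/-- `c` free: `a = 4^i`, `b = 2 * 4^i` -/
lemma caseC (a b c : ℤ) (i : ℕ) (ha : 0 < a) (hb : 0 < b) (hc : 0 < c) (hAt : AllAt a b c)
    (h1 : a = 4 ^ i) (h2 : b = 2 * 4 ^ i) : Concl a b c := by
  obtain ⟨x, y, z, w, hs, l, hl⟩ := hAt 6 (by norm_num)
  have hmem := vecs_mem 6 x y z w hs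
  rw [vecs_6] at hmem
  by_cases hz : z = 0
  · exfalso
    subst hz
    have hl' : ((x : ℤ) + 2 * y) * 4 ^ i = 4 ^ l := by
      rw [← hl, h1, h2]; push_cast; ring
    have hli : i ≤ l := by
      by_contra hlt
      push Not at hlt
      have hpos : 0 < ((x : ℤ) + 2 * y) := by
        by_contra hneg
        have h0 : (x : ℤ) + 2 * y = 0 := by
          have : (0 : ℤ) ≤ (x : ℤ) + 2 * y := by positivity
          omega
        rw [h0] at hl'
        have : (0 : ℤ) < 4 ^ l := by positivity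
        linarith
      have hlt' : (4 : ℤ) ^ l < 4 ^ i := pow_lt_pow_right₀ (by norm_num) hlt
      nlinarith [pow_pos (by norm_num : (0 : ℤ) < 4) i]
    obtain ⟨d, rfl⟩ := Nat.exists_eq_add_of_le hli
    have hd : (x : ℤ) + 2 * y = 4 ^ d := by
      have h4 : (0 : ℤ) < 4 ^ i := by positivity
      have : ((x : ℤ) + 2 * y) * 4 ^ i = 4 ^ d * 4 ^ i := by rw [hl', pow_add]; ring
      exact mul_right_cancel₀ h4.ne' this
    have m3 := four_pow_mod3 d
    have m5 := four_pow_mod5 d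
    rw [← hd] at m3 m5
    simp only [VL6, List.mem_cons, List.not_mem_nil, or_false, Prod.mk.injEq] at hmem
    omega
  · have hz' : (0 : ℤ) < z := by positivity
    apply famC_good ((x : ℤ), (y : ℤ), (z : ℤ)) hmem hz' a b c ha hb hc hAt
    refine ⟨hz', i, l, ?_⟩
    show vsub (vsub ((z : ℤ) * a, (z : ℤ) * b, (z : ℤ) * c)
      (vsmul (4 ^ i) ((z : ℤ), 2 * (z : ℤ), -((x : ℤ) + 2 * (y : ℤ)))))
      (vsmul (4 ^ l) (0, 0, 1)) = (0, 0, 0)
    rw [← hl, h1, h2]
    simp only [vsub, vsmul, Prod.mk.injEq]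
    refine ⟨by ring, by ring, by ring⟩

lemma caseA (a b c : ℤ) (i j : ℕ) (ha : 0 < a) (hb : 0 < b) (hc : 0 < c) (hAt : AllAt a b c)
    (h1 : a = 4 ^ i) (h2 : b = 2 * 4 ^ j) : Concl a b c := by
  obtain ⟨x, y, z, w, hs, l, hl⟩ := hAt 3 (by norm_num)
  have hmem := vecs_mem 3 x y z w hs
  rw [vecs_3] at hmem
  by_cases hz : z = 0
  · subst hz
    have hij : i = j := by
      have m3i := four_pow_mod3 i
      have m3j := four_pow_mod3 j
      have m3l := four_pow_mod3 l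
      rw [h1, h2] at hl
      simp only [VL3, List.mem_cons, List.not_mem_nil, or_false, Prod.mk.injEq] at hmem
      have hcases : ((x : ℤ) = 2 ∧ (y : ℤ) = 1) ∨ ((x : ℤ) = 0 ∧ (y : ℤ) = 0) ∨
          ((x : ℤ) = 0 ∧ (y : ℤ) = 3) ∨ ((x : ℤ) = 1 ∧ (y : ℤ) = 2) ∨
          ((x : ℤ) = 2 ∧ (y : ℤ) = 2) ∨ ((x : ℤ) = 3 ∧ (y : ℤ) = 0) := by omega
      rcases hcases with ⟨hx, hy⟩ | ⟨hx, hy⟩ | ⟨hx, hy⟩ | ⟨hx, hy⟩ | ⟨hx, hy⟩ | ⟨hx, hy⟩
      · rw [hx, hy] at hl
        -- 2 * 4^i + 2 * 4^j = 4^l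
        have hl2 : 2 * (4 : ℤ) ^ i + 2 * 4 ^ j = 4 ^ l := by
          rw [← hl]; push_cast; ring
        have key : ∀ p q : ℕ, p < q → 2 * (4 : ℤ) ^ p + 2 * 4 ^ q = 4 ^ l → False := by
          intro p q hpq he
          obtain ⟨d, rfl⟩ := Nat.exists_eq_add_of_lt hpq
          have e1 : (4 : ℤ) ^ l = 4 ^ p * (2 + 8 * 4 ^ d) := by
            rw [← he, show p + d + 1 = p + (d + 1) by ring, pow_add, pow_succ]; ring
          have hpl : p ≤ l := by
            by_contra hlt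
            push Not at hlt
            have hlt' : (4 : ℤ) ^ l < 4 ^ p := pow_lt_pow_right₀ (by norm_num) hlt
            have : (0 : ℤ) < 4 ^ d := by positivity
            nlinarith [pow_pos (by norm_num : (0 : ℤ) < 4) p]
          obtain ⟨t, rfl⟩ := Nat.exists_eq_add_of_le hpl
          rw [pow_add] at e1
          have e2 : (4 : ℤ) ^ t = 2 + 8 * 4 ^ d :=
            mul_left_cancel₀ (by positivity : (4 : ℤ) ^ p ≠ 0) e1
          cases t with
          | zero =>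
            have : (0 : ℤ) < 4 ^ d := by positivity
            norm_num at e2
            linarith
          | succ t => rw [pow_succ] at e2; omega
        rcases lt_trichotomy i j with h | h | h
        · exact absurd (key i j h hl2) (fun h => h)
        · exact h
        · exact absurd (key j i h (by linarith)) (fun h => h)
      · rw [hx, hy] at hl; omega
      · rw [hx, hy] at hl; omega
      · rw [hx, hy] at hl; omega
      · rw [hx, hy] at hl; omega
      · rw [hx, hy] at hl; omega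
    subst hij
    exact caseC a b c i ha hb hc hAt h1 h2
  · have hz' : (0 : ℤ) < z := by positivity
    apply famA_good ((x : ℤ), (y : ℤ), (z : ℤ)) hmem hz' a b c ha hb hc hAt
    refine ⟨hz', i, j, l, ?_⟩
    show vsub (vsub (vsub ((z : ℤ) * a, (z : ℤ) * b, (z : ℤ) * c)
      (vsmul (4 ^ i) ((z : ℤ), 0, -(x : ℤ))))
      (vsmul (4 ^ j) (0, 2 * (z : ℤ), -2 * (y : ℤ))))
      (vsmul (4 ^ l) (0, 0, 1)) = (0, 0, 0)
    rw [← hl, h1, h2]
    simp only [vsub, vsmul, Prod.mk.injEq]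
    refine ⟨by ring, by ring, by ring⟩

/-- `a = 4^i`, `a + b + c = 4^k`, and the representation for `n = 3` has `y < z` -/
lemma caseB_lt (a b c : ℤ) (i k : ℕ) (ha : 0 < a) (hb : 0 < b) (hc : 0 < c) (hAt : AllAt a b c)
    (h1 : a = 4 ^ i) (h2 : a + b + c = 4 ^ k) (x y z w l : ℕ)
    (hs : 3 ^ 2 = x ^ 2 + y ^ 2 + z ^ 2 + w ^ 2)
    (hl : (x : ℤ) * a + (y : ℤ) * b + (z : ℤ) * c = 4 ^ l) (hyz : y < z) : Concl a b c := by
  have hmem := vecs_mem 3 x y z w hs
  rw [vecs_3] at hmem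
  have hyz' : (y : ℤ) < z := by exact_mod_cast hyz
  apply famB_good ((x : ℤ), (y : ℤ), (z : ℤ)) hmem hyz' a b c ha hb hc hAt
  refine ⟨by show (0 : ℤ) < (z : ℤ) - y; linarith, i, k, l, ?_⟩
  show vsub (vsub (vsub (((z : ℤ) - y) * a, ((z : ℤ) - y) * b, ((z : ℤ) - y) * c)
    (vsmul (4 ^ i) ((z : ℤ) - y, -((z : ℤ) - x), (y : ℤ) - x)))
    (vsmul (4 ^ k) (0, (z : ℤ), -(y : ℤ))))
    (vsmul (4 ^ l) (0, -1, 1)) = (0, 0, 0)
  rw [← hl, ← h2, ← h1]
  simp only [vsub, vsmul, Prod.mk.injEq]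
  refine ⟨by ring, by ring, by ring⟩

lemma caseB (a b c : ℤ) (i k : ℕ) (ha : 0 < a) (hb : 0 < b) (hc : 0 < c) (hAt : AllAt a b c)
    (h1 : a = 4 ^ i) (h2 : a + b + c = 4 ^ k) : Concl a b c := by
  obtain ⟨x, y, z, w, hs, l, hl⟩ := hAt 3 (by norm_num)
  rcases lt_trichotomy y z with hyz | hyz | hyz
  · exact caseB_lt a b c i k ha hb hc hAt h1 h2 x y z w l hs hl hyz
  · exfalso
    subst hyz
    have hmem := vecs_mem 3 x y y w hs
    rw [vecs_3] at hmem
    simp only [VL3, List.mem_cons, List.not_mem_nil, or_false, Prod.mk.injEq] at hmem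
    have m3i := four_pow_mod3 i
    have m3k := four_pow_mod3 k
    have m3l := four_pow_mod3 l
    have hcases : ((x : ℤ) = 1 ∧ (y : ℤ) = 2) ∨ ((x : ℤ) = 0 ∧ (y : ℤ) = 0) ∨
        ((x : ℤ) = 0 ∧ (y : ℤ) = 2) ∨ ((x : ℤ) = 3 ∧ (y : ℤ) = 0) := by omega
    rcases hcases with ⟨hx, hy⟩ | ⟨hx, hy⟩ | ⟨hx, hy⟩ | ⟨hx, hy⟩
    · rw [hx, hy] at hl
      -- 2 * 4^k = 4^i + 4^l
      have e0 : 2 * (4 : ℤ) ^ k = 4 ^ i + 4 ^ l := by rw [← h1, ← h2, ← hl]; ring
      have hik : i < k := by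
        by_contra hlt
        push Not at hlt
        have : (4 : ℤ) ^ k ≤ 4 ^ i := pow_le_pow_right₀ (by norm_num) hlt
        rw [← h1, ← h2] at this
        linarith
      obtain ⟨d, rfl⟩ := Nat.exists_eq_add_of_lt hik
      have e1 : (4 : ℤ) ^ l = 4 ^ i * (8 * 4 ^ d - 1) := by
        have : (4 : ℤ) ^ (i + d + 1) = 4 ^ i * 4 ^ d * 4 := by rw [pow_succ, pow_add]
        rw [this] at e0
        linarith
      have hil : i ≤ l := by
        by_contra hlt
        push Not at hlt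
        have hlt' : (4 : ℤ) ^ l < 4 ^ i := pow_lt_pow_right₀ (by norm_num) hlt
        have : (1 : ℤ) ≤ 4 ^ d := one_le_pow₀ (by norm_num)
        nlinarith [pow_pos (by norm_num : (0 : ℤ) < 4) i]
      obtain ⟨t, rfl⟩ := Nat.exists_eq_add_of_le hil
      rw [pow_add] at e1
      have e2 : (4 : ℤ) ^ t = 8 * 4 ^ d - 1 :=
        mul_left_cancel₀ (by positivity : (4 : ℤ) ^ i ≠ 0) e1
      cases t with
      | zero =>
        have : (1 : ℤ) ≤ 4 ^ d := one_le_pow₀ (by norm_num)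
        norm_num at e2
        linarith
      | succ t => rw [pow_succ] at e2; omega
    · rw [hx, hy] at hl
      have : (0 : ℤ) < 4 ^ l := by positivity
      linarith
    · rw [hx, hy] at hl
      have e0 : 2 * (4 : ℤ) ^ k - 2 * 4 ^ i = 4 ^ l := by rw [← h1, ← h2, ← hl]; ring
      omega
    · rw [hx, hy] at hl
      rw [h1] at hl
      omega
  · have := caseB_lt a c b i k ha hc hb hAt.swap23 h1 (by linarith) x z y w l (by omega)
      (by linarith) hyz
    exact concl_swap this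

lemma half_pow (c : ℤ) (k : ℕ) (h : 2 * c = 4 ^ k) : ∃ j : ℕ, c = 2 * 4 ^ j := by
  cases k with
  | zero => norm_num at h; omega
  | succ k => exact ⟨k, by rw [pow_succ] at h; omega⟩

lemma core (a b c : ℤ) (i : ℕ) (ha : 0 < a) (hb : 0 < b) (hc : 0 < c) (hAt : AllAt a b c)
    (h1 : a = 4 ^ i) : Concl a b c := by
  obtain ⟨x, y, z, w, hs, l, hl⟩ := hAt 2 (by norm_num)
  have hmem := vecs_mem 2 x y z w hs
  rw [vecs_2] at hmem
  simp only [VL2, List.mem_cons, List.not_mem_nil, or_false, Prod.mk.injEq] at hmem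
  rcases hmem with ⟨hx, hy, hz⟩ | ⟨hx, hy, hz⟩ | ⟨hx, hy, hz⟩ | ⟨hx, hy, hz⟩ | ⟨hx, hy, hz⟩
  · rw [hx, hy, hz] at hl
    have : (0 : ℤ) < 4 ^ l := by positivity
    linarith
  · rw [hx, hy, hz] at hl
    obtain ⟨j, hj⟩ := half_pow c l (by linarith)
    exact concl_swap (caseA a c b i j ha hc hb hAt.swap23 h1 hj)
  · rw [hx, hy, hz] at hl
    obtain ⟨j, hj⟩ := half_pow b l (by linarith)
    exact caseA a b c i j ha hb hc hAt h1 hj
  · rw [hx, hy, hz] at hl
    exact caseB a b c i l ha hb hc hAt h1 (by linarith)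
  · rw [hx, hy, hz] at hl
    exfalso
    obtain ⟨j, hj⟩ := half_pow a l (by linarith)
    rw [h1] at hj
    cases i with
    | zero => norm_num at hj; omega
    | succ i =>
      cases j with
      | zero => rw [pow_succ] at hj; omega
      | succ j =>
        have m3i := four_pow_mod3 (i + 1)
        have m3j := four_pow_mod3 (j + 1)
        omega

/-- the final step: the triple is `4^i (1,2,3)` up to order, and squarefreeness forces `i = 0` -/
lemma sqfree_step (a b c i : ℕ) (h1 : a = 4 ^ i) (h2 : b = 2 * a) (h3 : c = 3 * a)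
    (g : ℕ) (hg : Squarefree g) (hga : g = a) : a = 1 ∧ b = 2 ∧ c = 3 := by
  have hi : i = 0 := by
    by_contra hi
    obtain ⟨j, rfl⟩ := Nat.exists_eq_succ_of_ne_zero hi
    have : 2 * 2 ∣ g := by
      rw [hga, h1, pow_succ]
      exact Dvd.intro_left _ rfl
    have := hg 2 this
    simp at this
  subst hi
  simp at h1
  subst h1
  omega

lemma allAt_of_propP (a b c : ℕ) (h : PropP a b c) : AllAt a b c := by
  intro n hn
  obtain ⟨x, y, z, w, hs, k, hk⟩ := h n hn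
  refine ⟨x, y, z, w, hs, k, ?_⟩
  have : ((a * x + b * y + c * z : ℕ) : ℤ) = ((4 ^ k : ℕ) : ℤ) := by rw [hk]
  push_cast at this
  linarith

lemma core_nat (a b c i : ℕ) (ha : 0 < a) (hb : 0 < b) (hc : 0 < c) (hAt : AllAt a b c)
    (h1 : (a : ℤ) = 4 ^ i) (hg : Squarefree (Nat.gcd a (Nat.gcd b c))) :
    (a = 1 ∧ b = 2 ∧ c = 3) ∨ (a = 1 ∧ b = 3 ∧ c = 2) := by
  have h1' : a = 4 ^ i := by exact_mod_cast h1
  have hcon := core a b c i (by exact_mod_cast ha) (by exact_mod_cast hb) (by exact_mod_cast hc)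
    hAt h1
  rcases hcon with ⟨h2, h3⟩ | ⟨h2, h3⟩
  · left
    have h2' : b = 2 * a := by exact_mod_cast h2
    have h3' : c = 3 * a := by exact_mod_cast h3
    refine sqfree_step a b c i h1' h2' h3' _ hg ?_
    rw [h2', h3']
    exact Nat.gcd_eq_left (Nat.dvd_gcd (Dvd.intro_left 2 rfl) (Dvd.intro_left 3 rfl))
  · right
    have h2' : b = 3 * a := by exact_mod_cast h2
    have h3' : c = 2 * a := by exact_mod_cast h3
    have := sqfree_step a c b i h1' h3' h2' _ hg (by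
      rw [h2', h3']
      exact Nat.gcd_eq_left (Nat.dvd_gcd (Dvd.intro_left 3 rfl) (Dvd.intro_left 2 rfl)))
    exact ⟨this.1, this.2.2, this.2.1⟩

theorem result : ∀ a b c : ℕ, 0 < a → 0 < b → 0 < c → Squarefree (Nat.gcd a (Nat.gcd b c)) →
    PropP a b c → ({a, b, c} : Multiset ℕ) = {1, 2, 3} := by
  intro a b c ha hb hc hg hP
  have hAt := allAt_of_propP a b c hP
  obtain ⟨x, y, z, w, hs, l, hl⟩ := hAt 1 le_rfl
  have hmem := vecs_mem 1 x y z w hs
  rw [vecs_1] at hmem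
  simp only [VL1, List.mem_cons, List.not_mem_nil, or_false, Prod.mk.injEq] at hmem
  rcases hmem with ⟨hx, hy, hz⟩ | ⟨hx, hy, hz⟩ | ⟨hx, hy, hz⟩ | ⟨hx, hy, hz⟩
  · rw [hx, hy, hz] at hl
    have : (0 : ℤ) < 4 ^ l := by positivity
    linarith
  · -- c = 4^l
    rw [hx, hy, hz] at hl
    have hg' : Squarefree (Nat.gcd c (Nat.gcd b a)) := by
      have : Nat.gcd c (Nat.gcd b a) = Nat.gcd a (Nat.gcd b c) := by
        rw [Nat.gcd_comm c, Nat.gcd_comm b a, Nat.gcd_assoc]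
      rw [this]; exact hg
    have hAt' : AllAt (c : ℤ) b a := hAt.swap23.swap12.swap23
    rcases core_nat c b a l hc hb ha hAt' (by linarith) hg' with ⟨h1, h2, h3⟩ | ⟨h1, h2, h3⟩ <;>
      subst h1 <;> subst h2 <;> subst h3 <;> decide
  · -- b = 4^l
    rw [hx, hy, hz] at hl
    have hg' : Squarefree (Nat.gcd b (Nat.gcd a c)) := by
      have : Nat.gcd b (Nat.gcd a c) = Nat.gcd a (Nat.gcd b c) := by
        rw [← Nat.gcd_assoc, Nat.gcd_comm b a, Nat.gcd_assoc]
      rw [this]; exact hg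
    rcases core_nat b a c l hb ha hc hAt.swap12 (by linarith) hg' with
      ⟨h1, h2, h3⟩ | ⟨h1, h2, h3⟩ <;>
      subst h1 <;> subst h2 <;> subst h3 <;> decide
  · -- a = 4^l
    rw [hx, hy, hz] at hl
    rcases core_nat a b c l ha hb hc hAt (by linarith) hg with ⟨h1, h2, h3⟩ | ⟨h1, h2, h3⟩ <;>
      subst h1 <;> subst h2 <;> subst h3 <;> decide

end Pool.Agent.Results.MP_42cda2_nt.Uniqueness
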